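import Pool.Agent.U939.IV.Prod

/-!
# Ivrii's conjecture for product tables, and for orbits all but one of whose normals are in a subspace or
orthogonal to it

Definitions (files `Pool/Agent/H721R2/Ivrii/Def.lean`, `Pool/Agent/U939/IV/Main.lean`,
`Pool/Agent/U939/IV/Prod.lean`), for a set `Ω` (the table) in a Euclidean space:

* `LocalDef Ω q F`: near `q` the table is `{F < 0}`, `F` is `C³` near `q`, `F q = 0` and the gradient of
  `F` at `q` is not zero;
* `Step Ω q v q' v'`: the particle leaves `q` with velocity `v`, stays in `Ω` until it meets the boundary
  transversally at `q' = q + t v`, `t > 0`, where the boundary is regular of class `C³`, and `v'` is the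
  velocity reflected there;
* `OrbitMod Ω g n p u`: `(p k, u k)` is a billiard trajectory of unit speed which is carried into itself
  by the isometry `g` after `n ≥ 1` bounces: `p (k+n) = g (p k)`, `u (k+n) = g' (u k)`, where `g'` is the
  linear part of `g`;
* `SplitAt V Ω q`: the boundary is regular at `q` and its normal at `q` is in the subspace `V` or
  orthogonal to `V`;
* `PerSplit V Γ Ω`: the phase points `(q, v)` which start a periodic trajectory modulo some `g ∈ Γ`, such
  that for some `a < n` the `n - 1` consecutive bounces `p k`, `a < k < a + n`, are at points `SplitAt V`
  (at most one bounce in a period is not);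
* `Per Γ Ω`: all phase points which start a periodic trajectory modulo some `g ∈ Γ`;
* `Inside W Ω I q`, for pairwise orthogonal subspaces `W i` (the positions of the particles `i`) and a set
  `I` of particles: the boundary is regular at `q`, and the normal is in the sum of the `W i`, `i ∈ I`, or
  in the sum of the `W i`, `i ∉ I`;
* `PerGroups W Γ Ω`: as `PerSplit`, for some division of the particles into two nonempty groups: at most
  one collision in a period is between the groups.

For every table, every subspace `V` which is not `0` and not the whole space, and every countable set `Γ`
of isometries preserving the table, the set `PerSplit V Γ Ω` has measure zero: almost every periodic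
trajectory has at least two bounces in a period whose normals are neither in `V` nor orthogonal to `V`.
For product tables `Ω₁ × Ω₂`, `Ω₁` and `Ω₂` ARBITRARY sets, all bounces are at points `SplitAt`, so the
set of all periodic points has measure zero, for all periods and in all dimensions; for tables which are
products outside of a closed set `K` (e.g. with smoothed corners) almost every periodic trajectory bounces
at least twice in `K` in a period. For systems of particles of any shapes (in a container or on a torus)
almost every periodic trajectory has, for each division of the particles into two groups, at least two
collisions between the groups in a period.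

## Outline of the proof

Near a given trajectory the trajectories which obey the reflection law at the vertices `1, ..., n` depend
on the `2 d - 2` parameters of the first side (`exists_chn` of the starting library). If the closed ones
with normals in `V ∪ Vᗮ` at the vertices `1, ..., n - 1` had positive measure, then at almost all of them
every differentiable function vanishing on this set would have zero derivative (`ae_zero`): the closing
condition and the condition on the normals hold to the first order for all variations. Let `P e` and
`Q e` be the components of a direction `e`. The direction `e` at the vertex `0` is turned in the plane of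
`P e` and `Q e`, the vertex `0` being fixed: `e' = - β P e + α Q e`. At a vertex with the normal in `V` the
shape operator maps into `V`, by the condition on the normals and because all tangent vectors occur; by
symmetry it vanishes on `Vᗮ`. The displacement of this vertex is in `Vᗮ`, so the normal is stationary and
the variation keeps its form (`Spl.vertex`); the same for `Vᗮ`. So after time `T` the displacement is
`T (- β P e + α Q e) + c e` (`no_good`), which is not zero, although the vertex `n`, the image of the
vertex `0`, is fixed. That `P e` and `Q e` do not vanish almost everywhere is seen in the same way.
-/

set_option autoImplicit false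

open MeasureTheory

namespace Pool.Agent.Results.MP_249f74_an.ProductTables

open Pool.Agent.H721R2.Ivrii Pool.Agent.U939.IV

/-- Let `E` be a Euclidean space of dimension `d`, `Ω ⊆ E` any table and `Γ` a countable set of isometries
preserving `Ω`.

**(1)** Let `V` be a subspace of `E`, `V ≠ 0`, `V ≠ E`. The phase points whose trajectory is periodic
modulo `Γ`, with any number of bounces in a period, all of which but at most one are at points where the
normal is in `V` or orthogonal to `V`, form a set of `(2 d - 2)`-dimensional measure zero.

**(2)** If `Ω` is the product of arbitrary sets in `V` and in `Vᗮ`, then all phase points which are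
periodic modulo `Γ` form a set of measure zero.

**(3)** Let the `W i` be finitely many pairwise orthogonal nonzero subspaces (the positions of particles).
The phase points whose trajectory is periodic modulo `Γ` and such that for some division of the particles
into two nonempty groups all collisions in a period but at most one are inside the groups form a set of
measure zero. -/
theorem result (E : Type) [NormedAddCommGroup E] [InnerProductSpace ℝ E] [FiniteDimensional ℝ E]
    [MeasurableSpace E] [BorelSpace E] (d : ℕ) (hd : Module.finrank ℝ E = d)
    (Ω : Set E) (Γ : Set (E ≃ᵃⁱ[ℝ] E)) (hΓ : Γ.Countable) (hinv : ∀ g ∈ Γ, g ⁻¹' Ω = Ω) :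
    (∀ V : Submodule ℝ E, V ≠ ⊥ → V ≠ ⊤ →
      μH[((2 * d - 2 : ℕ) : ℝ)] (PerSplit V Γ Ω) = 0 ∧
      ((∃ A B : Set E, Ω = {x | V.starProjection x ∈ A ∧ Vᗮ.starProjection x ∈ B}) →
        μH[((2 * d - 2 : ℕ) : ℝ)] (Per Γ Ω) = 0)) ∧
    ∀ (N : ℕ) (W : Fin N → Submodule ℝ E), (∀ i, W i ≠ ⊥) → (∀ i j, i ≠ j → W i ⟂ W j) →
      μH[((2 * d - 2 : ℕ) : ℝ)] (PerGroups W Γ Ω) = 0 := by
  subst hd
  refine ⟨fun V h0 h1 => ⟨perSplit_null V h0 h1 Ω Γ hΓ hinv, ?_⟩, fun N W h0 h1 =>
    perGroups_null h0 h1 Γ Ω hΓ hinv⟩
  rintro ⟨A, B, hAB⟩
  exact per_prod_null V h0 h1 hAB Γ hΓ hinv

end Pool.Agent.Results.MP_249f74_an.ProductTables
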