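import Pool.Agent.Q263.IV.Final

/-!
# Ivrii's conjecture for almost every member of finite dimensional families of (symmetric) tables

`E = ℝ^d`, `d ≥ 2`; a function `h : E → ℝ` of class `C²` defines the table `{h < 0}`; `Γ` is a finite
group of linear isometries of `ℝ^d` (the trivial group is allowed).

Definitions used (library files of the starting repository):

* `TwiceOrb Γ N h` (`Q263/IV/Def.lean`, `Main.lean`): the phase points whose trajectory comes, within
  `N` bounces, to the image under an element of `Γ` of one of its former bounce points; `PerN N h`: the
  periodic phase points of period at most `N`; `Good d Γ N h`: both sets have vanishing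
  `(2d-2)`-dimensional measure. `pol c`: the polynomial with the coefficients `c`.
* `PolFam`, `FinFam`, `SeqFam`, `EntFam`, `AllFam` (`Q263/IV/Final.lean`): the statements below.

The starting file `MP_249f74_an.AlmostEveryPerturbation` perturbs by an infinite sequence of bumps, which
destroys analyticity and symmetry. Here the perturbations are polynomials of bounded degree
(finite dimensional Lebesgue measure, bounded period), or entire functions, and they keep a prescribed
finite symmetry group, for which returns to the `Γ`-orbit of a bounce point are excluded, too.
-/

set_option autoImplicit false

open Set MeasureTheory

namespace Pool.Agent.Results.MP_249f74_an.SymmetricTables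

open Q263.IV

/-- Let `d ≥ 2` and let `Γ` be a finite group of linear isometries of `ℝ^d`. For every `Γ`-invariant
function `f` of class `C²` the table `{f + F < 0}` is good for `N` (almost no trajectory comes within `N`
bounces to the `Γ`-orbit of one of its former bounce points, and almost no phase point is periodic
with a period at most `N`)

1. for almost every `Γ`-invariant polynomial `F` of degree at most `D` in each variable, if
   `D ≥ 2 |Γ| (N - 1)`;
2. for almost every member `F` of a finite dimensional space of `Γ`-invariant `C²` functions which
   separates every point `q` from the `1`-jets at `N - 1` points off the orbit of `q`;
3. and all `N`, for almost every point `t` of the Hilbert cube and `F = ∑ t j * g j`, for every locally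
   uniformly `C²`-summable sequence of `Γ`-invariant functions `g j` whose linear combinations separate
   points from `1`-jets at finitely many points;
4. in particular for suitable sequences of `Γ`-invariant polynomials `g j` with arbitrarily small
   coefficients (then `F` is an entire function). -/
theorem result : ∀ d : ℕ, 2 ≤ d →
    ∀ Γ : Subgroup (EuclideanSpace ℝ (Fin d) ≃ₗᵢ[ℝ] EuclideanSpace ℝ (Fin d)),
      Finite Γ → AllFam d Γ :=
  fun _ hd Γ hΓ => allFam hd Γ hΓ

end Pool.Agent.Results.MP_249f74_an.SymmetricTables
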