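import Pool.Agent.U939.IV.TrTot

/-!
# Almost every periodic billiard trajectory satisfies the trace form of the Lyapunov inequality

Definitions (files `Pool/Agent/H721R2/Ivrii/Def.lean`, `Pool/Agent/TH318/IvDef.lean`,
`Pool/Agent/U939/IV/TrMain.lean`, `Pool/Agent/U939/IV/TrTot.lean`), for a set `Ω` (the table) in a
Euclidean space `E` of dimension `d`:

* `LocalDef Ω q F`: near `q` the table is `{F < 0}`, `F` is `C³` near `q`, `F q = 0` and the gradient of
  `F` at `q` is not zero;
* `Step Ω q v q' v'`: the particle leaves `q` with velocity `v`, stays in `Ω` until it meets the boundary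
  transversally at `q' = q + t v`, `t > 0`, where the boundary is regular of class `C³`, and `v'` is the
  velocity reflected there;
* `OrbitMod Ω g n p u`: `(p k, u k)` is a billiard trajectory of unit speed (`u k` is the velocity after
  the bounce `p k`) which is carried into itself by the isometry `g` after `n ≥ 1` bounces;
* `pos p k`: the length of the path `p 0, p 1, …, p k`;
* `TrLe Ω q u r τ`: the focusing form `2 cos φ F''(w, w) / |∇F|` of the bounce at `q` with outgoing unit
  velocity `u` (`φ` is the angle with the normal, `w` a tangent vector) is, for the tangent vectors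
  orthogonal to `r` suitable vectors, at most `∑ j, ⟨a j, w⟩²`, where the `a j` are orthogonal to `u` and
  `∑ j, |a j|² ≤ τ`. For `r = 0` this says that the focusing operator of the bounce (on the space
  orthogonal to the trajectory, as in the mirror equation) is at most a positive operator of trace `τ`;
* `TrPath Ω n p u`: there are `r k` and `τ k`, `1 ≤ k < n`, with `TrLe Ω (p k) (u k) (r k) (τ k)` and
  `∑ τ k s k (ℓ - s k) < (d - 1 - ∑ r k) ℓ`, `s k = pos p k`, `ℓ = pos p n`;
* `TrPer Γ Ω`: the phase points `(q, v)` which start a periodic trajectory modulo some `g ∈ Γ`, such that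
  `TrPath` holds for the trajectory from some bounce `i < n` on;
* `TrAll Γ Ω`: the phase points which start a periodic trajectory modulo some `g ∈ Γ`, with
  `TrLe Ω (p k) (u k) 0 (τ k)` for all `k`, the sequence `τ` being periodic, and
  `ℓ ∑ τ k < 6 (d - 1)` (sum over a period, `ℓ` the length of the period);
* `FocLe Ω q u r β` (starting files): the focusing form is at most `β (|w|² - ⟨u, w⟩²)` off `r` directions.

The theorem: `TrPer Γ Ω` and `TrAll Γ Ω` have measure zero, for every table `Ω` and every countable set
`Γ` of isometries preserving it. So almost every periodic trajectory, with any number of bounces, satisfies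
`∑ τ k s k (ℓ - s k) ≥ (d - 1) ℓ`, the sum over all bounces but one, chosen as the origin, and
`ℓ ∑ τ k ≥ 6 (d - 1)`, the sum over all bounces. For example, if all principal curvatures of the boundary
are at most `c ≥ 0`, then `ℓ ∑ 2 c (1 / cos φ k + (d - 2) cos φ k) ≥ 6 (d - 1)`.

The starting result `WeakFocusing` has the inequality with the NORM `β k` of the focusing operator instead of
its trace and `ℓ` instead of `(d - 1) ℓ` on the right side; since `τ k ≤ (d - 1) β k` (last part of the
theorem), the trace form is stronger for `r k = 0`, `d ≥ 3`.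

## Outline of the proof

At almost all periodic phase points all variations of the trajectory close up to first order (a point of
density of the set of periodic points). The variations fixing the bounce `0`, unfolded (`unf` of the
starting files), are broken lines `J` in a Euclidean space `W` of dimension `d - 1` with `J(0) = J(ℓ) = 0`,
for every initial direction. With the energy `E(J) = ∫ |J'|²` one has `E(J) = ∑ ⟨K k J(s k), J(s k)⟩`,
where the `K k` are the focusing operators. Take an orthonormal basis `J i` for the energy of the space of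
these `J` (for which the `r k` conditions hold), of dimension at least `d - 1 - ∑ r k`. Its number of
elements is `∑ i, E(J i) ≤ ∑ k ∑ j ∑ i, ⟨a j, J i(s k)⟩²`, and by Bessel's inequality and
`|J(s)|² ≤ s (ℓ - s) E(J) / ℓ` the inner sum is at most `|a j|² s k (ℓ - s k) / ℓ` (`trace_ineq`).
The second inequality follows from the first one for all the bounces as origins, averaged by the
trapezoidal rule, which underestimates the integral `ℓ³ / 6` of `s (ℓ - s)` (`avg`).
-/

set_option autoImplicit false

open MeasureTheory
open scoped InnerProductSpace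

namespace Pool.Agent.Results.MP_249f74_an.TraceFocusing

open Pool.Agent.H721R2.Ivrii Pool.Agent.TH318.Iv Pool.Agent.U939.IV.Tr

/-- Let `E` be a Euclidean space of dimension `d ≥ 2`, `Ω ⊆ E` any table and `Γ` a countable set of
isometries preserving `Ω`.

**(1)** The phase points whose trajectory is periodic modulo `Γ`, with any number of bounces, and violates
for some origin at a bounce the inequality `∑ τ k s k (ℓ - s k) ≥ (d - 1 - ∑ r k) ℓ` between the traces
`τ k` of the focusing forms of the other bounces off `r k` directions, their positions `s k` along the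
trajectory and the length `ℓ` of a period, form a set of `(2 d - 2)`-dimensional measure zero.

**(2)** So do the phase points whose trajectory is periodic modulo `Γ` with `ℓ ∑ τ k < 6 (d - 1)`.

**(3)** If `F''(w, w) / |∇F| ≤ ∑ c j ⟨t j, w⟩²` for all tangent vectors `w`, with unit tangent vectors `t j`
and `c j ≥ 0` (for instance, the principal directions and the positive parts of the principal curvatures),
the trace is at most `∑ 2 c j (cos φ + ⟨t j, u⟩² / cos φ)`, `cos φ = |⟨∇F, u⟩| / |∇F|`.

**(4)** The trace is at most `d - 1` times the bound `β` of the starting result `WeakFocusing`. -/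
theorem result (E : Type) [NormedAddCommGroup E] [InnerProductSpace ℝ E] [FiniteDimensional ℝ E]
    [MeasurableSpace E] [BorelSpace E] (d : ℕ) (hd : Module.finrank ℝ E = d) (h2 : 2 ≤ d)
    (Ω : Set E) (Γ : Set (E ≃ᵃⁱ[ℝ] E)) (hΓ : Γ.Countable) (hinv : ∀ g ∈ Γ, g ⁻¹' Ω = Ω) :
    μH[((2 * d - 2 : ℕ) : ℝ)] (TrPer Γ Ω) = 0 ∧
    μH[((2 * d - 2 : ℕ) : ℝ)] (TrAll Γ Ω) = 0 ∧
    (∀ (q u : E) (F : E → ℝ), LocalDef Ω q F → ⟪gradient F q, u⟫_ℝ ≠ 0 →
      ∀ (s : ℕ) (t : Fin s → E) (c : Fin s → ℝ), (∀ j, 0 ≤ c j) → (∀ j, ‖t j‖ = 1) →
        (∀ j, ⟪gradient F q, t j⟫_ℝ = 0) →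
        (∀ w : E, ⟪gradient F q, w⟫_ℝ = 0 →
          fderiv ℝ (fderiv ℝ F) q w w ≤ ‖gradient F q‖ * ∑ j, c j * ⟪t j, w⟫_ℝ ^ 2) →
        TrLe Ω q u 0 (∑ j, 2 * c j * (|⟪gradient F q, u⟫_ℝ| / ‖gradient F q‖ +
          ⟪t j, u⟫_ℝ ^ 2 * ‖gradient F q‖ / |⟪gradient F q, u⟫_ℝ|))) ∧
    ∀ (q u : E) (β : ℝ), ‖u‖ = 1 → 0 ≤ β → FocLe Ω q u 0 β →
      TrLe Ω q u 0 (((d : ℝ) - 1) * β) := by
  subst hd
  have h := trPer_null h2 Ω Γ hΓ hinv
  exact ⟨h, measure_mono_null (trAll_sub Γ Ω) h,
    fun q u F hF hu s t c hc ht htn hw => trLe_of_curv hF hu t c hc ht htn hw,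
    fun q u β hu hβ hf => trLe_of_focLe hu hβ hf⟩

end Pool.Agent.Results.MP_249f74_an.TraceFocusing
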