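import Pool.Agent.Q263.IW.Final

/-!
# Ivrii's conjecture for almost every table with walls, in all dimensions

A table is given by walls: `{x | ∀ i, h i x < 0}`, `i : Fin m`, with functions `h i` of class `C²` on
`ℝ^d`, `d ≥ 2`; corners and edges are allowed, and nothing is assumed about the walls.

Definitions used (all from the library files of the starting repository):

* `Q263.IW.WTraj` (`Q263/IW/Def.lean`): a piece of a billiard trajectory in the table with the walls
  `h`: the bounce number `k` is at the point `p k` of the wall `ι k` and of no other wall, with the
  outgoing unit velocity `u k`, transversal to the wall.
* `Movable h s` (`Q263/IW/Main.lean`): the phase points of the table with the walls `h i s` whose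
  trajectory comes back to one of its bounce points `p b = p a` and such that some direction `c` of the
  parameter space moves the wall at this point to the first order and leaves the walls and their
  normals at the bounce points in between unchanged to the first order.
* `ReturnWall`, `PerOnce`, `WTwice N`, `WPer N` (`Q263/IW/Cor.lean`): the phase points whose trajectory
  comes back to a bounce point without having met its wall in between; the periodic phase points whose
  trajectory meets some wall exactly once in a period; the phase points whose trajectory meets a
  boundary point twice within `N` bounces; the periodic phase points of period at most `N`.
* `MovFam`, `TransFam`, `PolW`, `EntW` (`Q263/IW/Final.lean`): the four statements below.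

The starting file `MP_249f74_an.AlmostEveryPerturbation` is about tables with one boundary function and
perturbations by an infinite sequence of bumps. Here the perturbations are finite dimensional
(parameters, translations of the walls, polynomials of bounded degree) or entire, and the tables have
corners. The proof is a transversality argument: for a fixed oriented line, the parameters for which
the trajectory which starts on the line comes back to its first bounce point, this point being movable,
form a null set, as the defining equations of the returning trajectory are a submersion in the
parameters and the trajectory (`Q263/IW/Core3.lean`); then Fubini's theorem, as the set of the
parameters and lines is a countable union of closed sets (`Q285/IW/Closed3.lean`).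
-/

set_option autoImplicit false

open Set MeasureTheory

namespace Pool.Agent.Results.MP_249f74_an.WallsInGeneralPosition

open Q263.IW

/-- Let `d ≥ 2`.

1. (`MovFam`) For every family of tables `{x | ∀ i, h i s x < 0}`, `i < m`, in `ℝ^d` which depends on a
   parameter `s` of a finite dimensional space, with functions `h i` of class `C²` in `(s, x)`: for
   almost every `s` the set of the phase points whose trajectory comes back to a movable bounce point
   has vanishing `(2d-2)`-dimensional measure.
2. (`TransFam`) For all functions `f i`, `i < m`, of class `C²` and almost all translations `s i` of the
   walls, in the table `{x | ∀ i, f i (x - s i) < 0}` almost no trajectory comes back to a bounce point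
   without having met its wall in between, and the periodic points whose trajectory meets some wall
   exactly once in a period have vanishing measure.
3. (`PolW`) If `D ≥ 2 (N - 1)` then for all `f i` of class `C²` and almost every polynomial `P` of degree
   at most `D` in each variable, almost no trajectory in the table `{x | ∀ i, f i x + P x < 0}` meets a
   boundary point twice within `N` bounces, and the periodic points of period at most `N` have
   vanishing measure.
4. (`EntW`) There are sequences of polynomials `P j` with arbitrarily small coefficients, independent of
   the walls, such that for all `f i` of class `C²` and almost every point `t` of the Hilbert cube this
   holds for all `N` and the table `{x | ∀ i, f i x + ∑ j, t j * P j x < 0}`. -/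
theorem result : ∀ d : ℕ, 2 ≤ d → MovFam (EuclideanSpace ℝ (Fin d)) d ∧
    TransFam (EuclideanSpace ℝ (Fin d)) d ∧ PolW d ∧ EntW d :=
  fun _ hd => ⟨movFam hd (by simp), transFam hd (by simp), polW hd, entW hd⟩

end Pool.Agent.Results.MP_249f74_an.WallsInGeneralPosition
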